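import Pool.Agent.Helper45.LinK.GoalsN
import Pool.Agent.Helper8.Abund.FDerivHolo

open Complex Metric Set Filter Topology MeasureTheory Interval

namespace Pool.Agent.Helper75.LinK

open Pool.Agent.Helper45.LinK Pool.Agent.Helper95.Lin

theorem inth : S_INTH := by
  intro n E _ _ _ M hM φ hφ hc
  intro x0 hx0
  apply DifferentiableAt.differentiableWithinAt
  -- radius
  obtain ⟨R, hR, hRM⟩ := Metric.isOpen_iff.mp hM x0 hx0
  obtain ⟨r, hr, hrR⟩ : ∃ r : ℝ, 0 < r ∧ 4 * r < R := ⟨R / 8, by positivity, by linarith⟩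
  have hcl : closedBall x0 (3 * r) ⊆ M := (closedBall_subset_ball (by linarith)).trans hRM
  have hK : IsCompact (Icc (0 : ℝ) 1 ×ˢ closedBall x0 (3 * r)) :=
    isCompact_Icc.prod (isCompact_closedBall x0 (3 * r))
  have hcK : ContinuousOn (fun p : ℝ × Cn n => φ p.1 p.2) (Icc (0 : ℝ) 1 ×ˢ closedBall x0 (3 * r)) :=
    hc.mono (prod_mono_right hcl)
  obtain ⟨C, hC⟩ := hK.exists_bound_of_continuousOn hcK
  have hbd : ∀ s ∈ Icc (0 : ℝ) 1, ∀ x ∈ ball x0 r, ‖fderiv ℂ (φ s) x‖ ≤ C / r := by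
    intro s hs x hx
    have hsub : ball x (2 * r) ⊆ closedBall x0 (3 * r) := by
      intro y hy
      rw [mem_ball] at hx hy
      rw [mem_closedBall]
      linarith [dist_triangle y x x0]
    exact Pool.Agent.Helper8.Abund.norm_fderiv_le_of_bound hr
      ((hφ s hs).mono (hsub.trans hcl)) (fun u hu => hC (s, u) ⟨hs, hsub hu⟩)
  have hdiffAt : ∀ s ∈ Icc (0 : ℝ) 1, ∀ x ∈ M, DifferentiableAt ℂ (φ s) x := fun s hs x hx =>
    ((hφ s hs) x hx).differentiableAt (hM.mem_nhds hx)
  have hcont : ContinuousOn (fun s => fderiv ℂ (φ s) x0) (Icc (0 : ℝ) 1) := by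
    have huc := hK.uniformContinuousOn_of_continuous hcK
    rw [Metric.uniformContinuousOn_iff] at huc
    rw [Metric.continuousOn_iff]
    intro s0 hs0 ε hε
    obtain ⟨δ, hδ, h⟩ := huc (ε * r / 2) (by positivity)
    refine ⟨δ, hδ, fun s hs hd => ?_⟩
    have hsub : ball x0 (2 * r) ⊆ closedBall x0 (3 * r) := fun y hy => by
      rw [mem_ball] at hy
      rw [mem_closedBall]
      linarith
    have h1 := Pool.Agent.Helper8.Abund.norm_fderiv_le_of_bound (f := fun x => φ s x - φ s0 x)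
      (w := x0) (M := ε * r / 2) hr
      (((hφ s hs).sub (hφ s0 hs0)).mono (hsub.trans hcl)) (fun u hu => by
        have h2 := h (s, u) ⟨hs, hsub hu⟩ (s0, u) ⟨hs0, hsub hu⟩ (by
          rw [Prod.dist_eq]
          simpa using hd)
        rw [dist_eq_norm] at h2
        exact h2.le)
    have h3 : fderiv ℂ (fun x => φ s x - φ s0 x) x0 = fderiv ℂ (φ s) x0 - fderiv ℂ (φ s0) x0 :=
      fderiv_fun_sub (hdiffAt s hs x0 hx0) (hdiffAt s0 hs0 x0 hx0)
    rw [h3] at h1
    rw [dist_eq_norm]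
    calc ‖fderiv ℂ (φ s) x0 - fderiv ℂ (φ s0) x0‖ ≤ ε * r / 2 / r := h1
      _ = ε / 2 := by field_simp
      _ < ε := by linarith
  have hI : ∀ s ∈ Ι (0 : ℝ) 1, s ∈ Icc (0 : ℝ) 1 := by
    intro s hs
    rw [uIoc_of_le zero_le_one] at hs
    exact ⟨hs.1.le, hs.2⟩
  have hcx : ∀ x ∈ M, ContinuousOn (fun s => φ s x) (Icc (0 : ℝ) 1) := by
    intro x hx
    exact hc.comp (f := fun s : ℝ => (s, x)) (by fun_prop) (fun s hs => ⟨hs, hx⟩)
  have hmain := intervalIntegral.hasFDerivAt_integral_of_dominated_of_fderiv_le (𝕜 := ℂ)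
    (μ := volume) (a := 0) (b := 1)
    (F := fun x s => φ s x) (F' := fun x s => fderiv ℂ (φ s) x) (x₀ := x0) (s := ball x0 r)
    (bound := fun _ => C / r) (ball_mem_nhds x0 hr)
    (by
      filter_upwards [hM.mem_nhds hx0] with x hx
      exact ((hcx x hx).mono hI).aestronglyMeasurable measurableSet_uIoc)
    (by
      apply ContinuousOn.intervalIntegrable
      rw [uIcc_of_le zero_le_one]
      exact hcx x0 hx0)
    ((hcont.mono hI).aestronglyMeasurable measurableSet_uIoc)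
    (Eventually.of_forall fun s hs x hx => hbd s (hI s hs) x hx)
    intervalIntegrable_const
    (Eventually.of_forall fun s hs x hx => by
      have hxM : x ∈ M := hcl (by
        rw [mem_ball] at hx
        rw [mem_closedBall]
        linarith)
      exact (hdiffAt s (hI s hs) x hxM).hasFDerivAt)
  exact hmain.differentiableAt

end Pool.Agent.Helper75.LinK
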